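import Mathlib

set_option autoImplicit false

namespace Pool.Agent.Results.MP_bc2c67_co.AsymptoticHL

open Classical

/-! ## Independent and dominating sets in Hamming graphs -/

/-- `x` and `y` differ in exactly one coordinate. -/
def Nb {I A : Type} (x y : I → A) : Prop := ∃ i, x i ≠ y i ∧ ∀ j, j ≠ i → x j = y j

/-- Dominating. -/
def Dom {I A : Type} (D : Finset (I → A)) : Prop := ∀ v, v ∈ D ∨ ∃ u ∈ D, Nb u v

/-- Independent. -/
def Ind {I A : Type} (D : Finset (I → A)) : Prop := ∀ u ∈ D, ∀ v ∈ D, ¬ Nb u v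

lemma Nb.symm {I A : Type} {x y : I → A} (h : Nb x y) : Nb y x := by
  obtain ⟨i, hi, hj⟩ := h
  exact ⟨i, fun e => hi e.symm, fun j hji => (hj j hji).symm⟩

lemma not_nb_self {I A : Type} (x : I → A) : ¬ Nb x x := by
  rintro ⟨i, hi, -⟩
  exact hi rfl

lemma nb_update {I A : Type} [DecidableEq I] {x : I → A} {i : I} {a : A} (h : a ≠ x i) :
    Nb (Function.update x i a) x := by
  refine ⟨i, ?_, ?_⟩
  · rw [Function.update_self]; exact h
  · intro j hj; exact Function.update_of_ne hj _ _

/-- Every independent set extends to an independent dominating set. -/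
lemma exists_extend {I A : Type} [Fintype I] [Fintype A] (S : Finset (I → A)) (hS : Ind S) :
    ∃ D : Finset (I → A), S ⊆ D ∧ Ind D ∧ Dom D := by
  obtain ⟨D, hD, hmax⟩ := Finset.exists_max_image
    ((Finset.univ : Finset (Finset (I → A))).filter (fun T => S ⊆ T ∧ Ind T)) Finset.card
    ⟨S, by simp [hS]⟩
  rw [Finset.mem_filter] at hD
  refine ⟨D, hD.2.1, hD.2.2, ?_⟩
  intro v
  by_contra hcon
  push Not at hcon
  obtain ⟨hv, hn⟩ := hcon
  have hins : insert v D ∈
      (Finset.univ : Finset (Finset (I → A))).filter (fun T => S ⊆ T ∧ Ind T) := by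
    rw [Finset.mem_filter]
    refine ⟨Finset.mem_univ _, hD.2.1.trans (Finset.subset_insert _ _), ?_⟩
    intro x hx y hy hxy
    rw [Finset.mem_insert] at hx hy
    rcases hx with rfl | hx <;> rcases hy with rfl | hy
    · exact not_nb_self _ hxy
    · exact hn y hy hxy.symm
    · exact hn x hx hxy
    · exact hD.2.2 x hx y hy hxy
  have := hmax _ hins
  rw [Finset.card_insert_of_notMem hv] at this
  omega

/-- Averaging: from a perfect colouring of the Hamming graph over the alphabet `A` we get a good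
independent dominating set over a smaller alphabet `W`. -/
lemma exists_restrict {I A W P : Type} [DecidableEq I] [Fintype I] [Fintype A] [Fintype W] [Fintype P]
    [Nonempty P] (f : W → A) (hf : Function.Injective f) (Φ : (I → A) → P)
    (hprop : ∀ x y, Nb x y → Φ x ≠ Φ y)
    (hsurj : ∀ x p, Φ x ≠ p → ∃ i a, Φ (Function.update x i a) = p) :
    ∃ D : Finset (I → W), Ind D ∧ Dom D ∧
      Fintype.card P * (Fintype.card W * D.card) ≤
        Fintype.card W ^ Fintype.card I *
          (Fintype.card W + Fintype.card I * (Fintype.card A - Fintype.card W)) := by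
  let S : P → Finset (I → W) := fun p => Finset.univ.filter (fun y => Φ (fun i => f (y i)) = p)
  have hcomp : ∀ (y : I → W) (i : I) (w : W),
      (fun j => f (Function.update y i w j)) = Function.update (fun j => f (y j)) i (f w) := by
    intro y i w
    funext j
    by_cases h : j = i
    · subst h; simp
    · rw [Function.update_of_ne h, Function.update_of_ne h]
  have hSind : ∀ p, Ind (S p) := by
    intro p u hu v hv huv
    rw [Finset.mem_filter] at hu hv
    obtain ⟨i, hi, hj⟩ := huv
    refine hprop (fun i => f (u i)) (fun i => f (v i)) ⟨i, fun e => hi (hf e), fun j hji => ?_⟩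
      (hu.2.trans hv.2.symm)
    simp only
    rw [hj j hji]
  choose D hSD hDind hDdom using fun p => exists_extend (S p) (hSind p)
  let T : P → Finset (I × (I → W) × A) := fun p => Finset.univ.filter (fun t =>
    t.2.2 ∉ Set.range f ∧ Φ (Function.update (fun i => f (t.2.1 i)) t.1 t.2.2) = p)
  -- the extra elements
  have hextra : ∀ p, Fintype.card W * (D p \ S p).card ≤ (T p).card := by
    intro p
    have hch : ∀ y ∈ D p \ S p, ∃ i a, a ∉ Set.range f ∧
        Φ (Function.update (fun i => f (y i)) i a) = p := by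
      intro y hy
      rw [Finset.mem_sdiff] at hy
      have hne : Φ (fun i => f (y i)) ≠ p := by
        intro h
        exact hy.2 (by simp only [S, Finset.mem_filter, Finset.mem_univ, true_and]; exact h)
      obtain ⟨i, a, ha⟩ := hsurj _ p hne
      refine ⟨i, a, ?_, ha⟩
      rintro ⟨w, hw⟩
      rw [← hw, ← hcomp] at ha
      have hmem : Function.update y i w ∈ D p := hSD p (by
        simp only [S, Finset.mem_filter, Finset.mem_univ, true_and]; exact ha)
      have hwy : w ≠ y i := by
        intro e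
        rw [e, Function.update_eq_self] at ha
        exact hne ha
      exact hDind p _ hmem y hy.1 (nb_update hwy)
    choose ci ca hca hcp using hch
    have hcard : Fintype.card W * (D p \ S p).card =
        ((D p \ S p).attach ×ˢ (Finset.univ : Finset W)).card := by
      rw [Finset.card_product, Finset.card_attach, Finset.card_univ, mul_comm]
    rw [hcard]
    refine Finset.card_le_card_of_injOn
      (fun t => (ci t.1.1 t.1.2, Function.update t.1.1 (ci t.1.1 t.1.2) t.2, ca t.1.1 t.1.2)) ?_ ?_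
    · rintro ⟨⟨y, hy⟩, w⟩ -
      simp only [T, Finset.coe_filter, Finset.mem_univ, true_and, Set.mem_ofPred_eq]
      refine ⟨hca y hy, ?_⟩
      rw [hcomp, Function.update_idem]
      exact hcp y hy
    · rintro ⟨⟨y, hy⟩, w⟩ - ⟨⟨y', hy'⟩, w'⟩ - heq
      simp only [Prod.mk.injEq] at heq
      obtain ⟨h1, h2, -⟩ := heq
      have hoff : ∀ j, j ≠ ci y hy → y j = y' j := by
        intro j hj
        have := congrFun h2 j
        rw [Function.update_of_ne hj, Function.update_of_ne (h1 ▸ hj)] at this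
        exact this
      have hw : w = w' := by
        have := congrFun h2 (ci y hy)
        rw [Function.update_self, h1, Function.update_self] at this
        exact this
      have hyy : y = y' := by
        by_contra hne
        have hi : y (ci y hy) ≠ y' (ci y hy) := by
          intro e
          apply hne
          funext j
          by_cases hj : j = ci y hy
          · rw [hj]; exact e
          · exact hoff j hj
        exact hDind p y (Finset.mem_sdiff.mp hy).1 y' (Finset.mem_sdiff.mp hy').1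
          ⟨_, hi, hoff⟩
      subst hyy
      rw [hw]
  -- total counts
  have hsumS : ∑ p, (S p).card = Fintype.card W ^ Fintype.card I := by
    have := Finset.card_eq_sum_card_fiberwise (f := fun y : I → W => Φ (fun i => f (y i)))
      (s := (Finset.univ : Finset (I → W))) (t := (Finset.univ : Finset P))
      (fun _ _ => Finset.mem_coe.mpr (Finset.mem_univ _))
    rw [Finset.card_univ, Fintype.card_fun] at this
    rw [this]
  have hsumT : ∑ p, (T p).card =
      Fintype.card I * (Fintype.card W ^ Fintype.card I * (Fintype.card A - Fintype.card W)) := by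
    have h1 := Finset.card_eq_sum_card_fiberwise
      (f := fun t : I × (I → W) × A => Φ (Function.update (fun i => f (t.2.1 i)) t.1 t.2.2))
      (s := (Finset.univ : Finset (I × (I → W) × A)).filter (fun t => t.2.2 ∉ Set.range f))
      (t := (Finset.univ : Finset P))
      (fun _ _ => Finset.mem_coe.mpr (Finset.mem_univ _))
    have h2 : ((Finset.univ : Finset (I × (I → W) × A)).filter
        (fun t => t.2.2 ∉ Set.range f)).card =
        Fintype.card I * (Fintype.card W ^ Fintype.card I * (Fintype.card A - Fintype.card W)) := by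
      have h3 : (Finset.univ : Finset (I × (I → W) × A)).filter (fun t => t.2.2 ∉ Set.range f) =
          (Finset.univ : Finset I) ×ˢ ((Finset.univ : Finset (I → W)) ×ˢ
            ((Finset.univ : Finset A).filter (fun a => a ∉ Set.range f))) := by
        ext t
        simp
      rw [h3, Finset.card_product, Finset.card_product, Finset.card_univ, Finset.card_univ,
        Fintype.card_fun]
      congr 2
      have h4 : (Finset.univ : Finset A).filter (fun a => a ∉ Set.range f) =
          (Finset.univ.image f)ᶜ := by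
        ext a
        simp
      rw [h4, Finset.card_compl, Finset.card_image_of_injective _ hf, Finset.card_univ]
    rw [← h2, h1]
    refine Finset.sum_congr rfl (fun p _ => ?_)
    congr 1
    ext t
    simp [T]
  have htot : ∑ p : P, Fintype.card P * (Fintype.card W * (D p).card) ≤
      ∑ _p : P, Fintype.card W ^ Fintype.card I *
          (Fintype.card W + Fintype.card I * (Fintype.card A - Fintype.card W)) := by
    rw [← Finset.mul_sum, Finset.sum_const, Finset.card_univ, smul_eq_mul]
    refine Nat.mul_le_mul_left _ ?_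
    calc ∑ p, Fintype.card W * (D p).card
        = ∑ p, (Fintype.card W * (S p).card + Fintype.card W * (D p \ S p).card) := by
          refine Finset.sum_congr rfl (fun p _ => ?_)
          rw [← mul_add, add_comm, Finset.card_sdiff_add_card_eq_card (hSD p)]
      _ ≤ ∑ p, (Fintype.card W * (S p).card + (T p).card) :=
          Finset.sum_le_sum (fun p _ => Nat.add_le_add_left (hextra p) _)
      _ = Fintype.card W ^ Fintype.card I *
          (Fintype.card W + Fintype.card I * (Fintype.card A - Fintype.card W)) := by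
          rw [Finset.sum_add_distrib, ← Finset.mul_sum, hsumS, hsumT]
          ring
  obtain ⟨p, -, hp⟩ := Finset.exists_le_of_sum_le (s := (Finset.univ : Finset P))
    Finset.univ_nonempty htot
  exact ⟨D p, hDind p, hDdom p, hp⟩

/-! ## Pulling back to the hypercube -/

section pullback

variable {I W : Type} [Fintype I] [Fintype W] [AddCommGroup W] {N : ℕ}

/-- The syndrome-type map from the hypercube to the Hamming graph. -/
noncomputable def synd (l : Fin N → I × W) (z : Fin N → Bool) : I → W :=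
  fun i => ∑ k : Fin N, if z k = true ∧ (l k).1 = i then (l k).2 else 0

omit [Fintype I] [Fintype W] in
lemma synd_flip (h2 : ∀ w : W, w + w = 0) (l : Fin N → I × W) (z z' : Fin N → Bool) (k : Fin N)
    (hk : z k ≠ z' k) (hoff : ∀ j, j ≠ k → z j = z' j) (i : I) :
    synd l z' i = synd l z i + (if (l k).1 = i then (l k).2 else 0) := by
  have hsum : synd l z i + synd l z' i = if (l k).1 = i then (l k).2 else 0 := by
    unfold synd
    rw [← Finset.sum_add_distrib, Finset.sum_eq_single k]
    · cases h : z k <;> cases h' : z' k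
      · exact absurd (h.trans h'.symm) hk
      · simp
      · simp
      · exact absurd (h.trans h'.symm) hk
    · intro j _ hj
      rw [hoff j hj]
      exact h2 _
    · intro h
      exact absurd (Finset.mem_univ k) h
  rw [← hsum, ← add_assoc, h2, zero_add]

lemma exists_pullback (h2 : ∀ w : W, w + w = 0) (l : Fin N → I × W) (hne : ∀ k, (l k).2 ≠ 0)
    (hsurj : ∀ i w, w ≠ 0 → ∃ k, l k = (i, w)) (D : Finset (I → W)) (hI : Ind D) (hD : Dom D) :
    ∃ D' : Finset (Fin N → Bool), Ind D' ∧ Dom D' ∧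
      Fintype.card W ^ Fintype.card I * D'.card ≤ 2 ^ N * D.card := by
  let E : (I → W) → Finset (Fin N → Bool) := fun t =>
    Finset.univ.filter (fun z => synd l z + t ∈ D)
  have hEI : ∀ t, Ind (E t) := by
    intro t z hz z' hz' ⟨k, hk, hoff⟩
    simp only [E, Finset.mem_filter, Finset.mem_univ, true_and] at hz hz'
    have hfl := synd_flip h2 l z z' k hk hoff
    refine hI _ hz _ hz' ⟨(l k).1, ?_, ?_⟩
    · simp only [Pi.add_apply, hfl, if_true]
      intro h
      have h' : (l k).2 = 0 := by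
        have h3 := add_right_cancel h
        simpa using h3.symm
      exact hne k h'
    · intro j hj
      simp only [Pi.add_apply, hfl, if_neg (Ne.symm hj), add_zero]
  have hED : ∀ t, Dom (E t) := by
    intro t z
    rcases hD (synd l z + t) with h | ⟨u, hu, i, hi, hoff⟩
    · left
      simp only [E, Finset.mem_filter, Finset.mem_univ, true_and]
      exact h
    · right
      have hw : u i - (synd l z + t) i ≠ 0 := sub_ne_zero.mpr hi
      obtain ⟨k, hk⟩ := hsurj i _ hw
      refine ⟨Function.update z k (!z k), ?_, nb_update (by cases z k <;> simp)⟩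
      simp only [E, Finset.mem_filter, Finset.mem_univ, true_and]
      have hfl := synd_flip h2 l z (Function.update z k (!z k)) k (by simp)
        (fun j hj => (Function.update_of_ne hj _ _).symm)
      have : synd l (Function.update z k (!z k)) + t = u := by
        funext j
        simp only [Pi.add_apply, hfl, hk]
        by_cases hj : i = j
        · subst hj
          simp only [if_true]
          abel
        · rw [if_neg hj, add_zero]
          exact (hoff j (Ne.symm hj)).symm
      rw [this]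
      exact hu
  have hsum : ∑ t, (E t).card = 2 ^ N * D.card := by
    have h1 : ∑ t, (E t).card = ∑ t : I → W, ∑ z : Fin N → Bool,
        (if synd l z + t ∈ D then 1 else 0) := by
      refine Finset.sum_congr rfl (fun t _ => ?_)
      rw [Finset.card_filter]
    rw [h1, Finset.sum_comm]
    have h3 : ∀ z : Fin N → Bool, ∑ t : I → W, (if synd l z + t ∈ D then 1 else 0) = D.card := by
      intro z
      rw [← Finset.card_filter]
      refine Finset.card_bij (fun t _ => synd l z + t) ?_ ?_ ?_
      · intro t ht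
        exact (Finset.mem_filter.mp ht).2
      · intro t _ t' _ h
        exact add_left_cancel h
      · intro u hu
        refine ⟨u - synd l z, ?_, by abel⟩
        rw [Finset.mem_filter]
        refine ⟨Finset.mem_univ _, ?_⟩
        have : synd l z + (u - synd l z) = u := by abel
        rw [this]; exact hu
    rw [Finset.sum_congr rfl (fun z _ => h3 z), Finset.sum_const, Finset.card_univ,
      Fintype.card_fun, Fintype.card_bool, Fintype.card_fin, smul_eq_mul]
  have htot : ∑ t : I → W, Fintype.card W ^ Fintype.card I * (E t).card ≤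
      ∑ _t : I → W, 2 ^ N * D.card := by
    rw [← Finset.mul_sum, hsum, Finset.sum_const, Finset.card_univ, Fintype.card_fun, smul_eq_mul]
  obtain ⟨t, -, ht⟩ := Finset.exists_le_of_sum_le (s := (Finset.univ : Finset (I → W)))
    Finset.univ_nonempty htot
  exact ⟨E t, hEI t, hED t, ht⟩

end pullback

/-! ## The perfect colouring over the alphabet `K × ZMod m` -/

section colouring

variable {K : Type} [Field K] [Fintype K] {m : ℕ} [NeZero m]

/-- The perfect colouring. -/
noncomputable def col (x : Option K → K × ZMod m) : K × K × ZMod m :=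
  (∑ c : K, (x (some c)).1, (x none).1 + ∑ c : K, c * (x (some c)).1, ∑ i, (x i).2)

omit [NeZero m] in
lemma col_add (x y : Option K → K × ZMod m) : col (x + y) = col x + col y := by
  simp only [col, Pi.add_apply, Prod.fst_add, Prod.snd_add, Finset.sum_add_distrib, mul_add,
    Prod.mk_add_mk]
  congr 2
  ring

omit [NeZero m] in
lemma col_single_some (c : K) (δ : K × ZMod m) :
    col (Pi.single (some c) δ) = (δ.1, c * δ.1, δ.2) := by
  have h1 : ∀ c', (Pi.single (some c) δ : Option K → K × ZMod m) (some c') =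
      if c' = c then δ else 0 := by
    intro c'
    by_cases h : c' = c
    · subst h; simp
    · rw [if_neg h, Pi.single_eq_of_ne]
      simpa using h
  have h2 : (Pi.single (some c) δ : Option K → K × ZMod m) none = 0 := by
    rw [Pi.single_eq_of_ne]
    simp
  simp only [col, h1, h2, Fintype.sum_option]
  refine Prod.ext ?_ (Prod.ext ?_ ?_)
  · simp [apply_ite Prod.fst]
  · simp [apply_ite Prod.fst]
  · simp [apply_ite Prod.snd]

omit [NeZero m] in
lemma col_single_none (δ : K × ZMod m) :
    col (Pi.single (none : Option K) δ) = (0, δ.1, δ.2) := by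
  have h1 : ∀ c', (Pi.single none δ : Option K → K × ZMod m) (some c') = 0 := by
    intro c'
    rw [Pi.single_eq_of_ne]
    simp
  simp only [col, h1, Fintype.sum_option]
  simp

omit [Fintype K] [NeZero m] in
lemma eq_add_single {x y : Option K → K × ZMod m} {i : Option K} (h : ∀ j, j ≠ i → x j = y j) :
    y = x + Pi.single i (y i - x i) := by
  funext j
  by_cases hj : j = i
  · subst hj; simp
  · rw [Pi.add_apply, Pi.single_eq_of_ne hj, add_zero, h j hj]

omit [NeZero m] in
lemma col_ne (x y : Option K → K × ZMod m) (h : Nb x y) : col x ≠ col y := by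
  obtain ⟨i, hi, hoff⟩ := h
  intro hc
  rw [eq_add_single hoff, col_add] at hc
  have h0 : col (Pi.single i (y i - x i)) = 0 := by
    have := hc.symm
    rwa [add_eq_left] at this
  have hd : y i - x i = 0 := by
    cases i with
    | none =>
      rw [col_single_none] at h0
      have e1 := congrArg (fun t => t.2.1) h0
      have e2 := congrArg (fun t => t.2.2) h0
      exact Prod.ext e1 e2
    | some c =>
      rw [col_single_some] at h0
      have e1 := congrArg (fun t => t.1) h0
      have e2 := congrArg (fun t => t.2.2) h0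
      exact Prod.ext e1 e2
  exact hi (sub_eq_zero.mp hd).symm

omit [NeZero m] in
lemma col_surj (x : Option K → K × ZMod m) (p : K × K × ZMod m) (_h : col x ≠ p) :
    ∃ i a, col (Function.update x i a) = p := by
  have key : ∀ (i : Option K) (δ : K × ZMod m),
      col (Function.update x i (x i + δ)) = col x + col (Pi.single i δ) := by
    intro i δ
    rw [← col_add]
    congr 1
    funext j
    by_cases hj : j = i
    · subst hj; simp
    · rw [Function.update_of_ne hj, Pi.add_apply, Pi.single_eq_of_ne hj, add_zero]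
  by_cases hg : (p - col x).1 = 0
  · refine ⟨none, _, (key none ((p - col x).2.1, (p - col x).2.2)).trans ?_⟩
    rw [col_single_none]
    have : ((0 : K), (p - col x).2.1, (p - col x).2.2) = p - col x := by
      refine Prod.ext ?_ rfl
      exact hg.symm
    simp only at this ⊢
    rw [this]
    abel
  · refine ⟨some ((p - col x).2.1 / (p - col x).1), _,
      (key _ ((p - col x).1, (p - col x).2.2)).trans ?_⟩
    rw [col_single_some]
    have : ((p - col x).1, (p - col x).2.1 / (p - col x).1 * (p - col x).1, (p - col x).2.2) =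
        p - col x := by
      rw [div_mul_cancel₀ _ hg]
    simp only at this ⊢
    rw [this]
    abel

end colouring

/-- The finite construction. -/
lemma exists_finite (b r m N : ℕ) (hb : b ≠ 0) (hr : r ≠ 0) (hm : m ≠ 0) (hW : 2 ^ r ≤ 3 ^ b * m)
    (hN : (3 ^ b + 1) * (2 ^ r - 1) ≤ N) :
    ∃ D : Finset (Fin N → Bool), Ind D ∧ Dom D ∧
      (3 ^ b * (3 ^ b * m)) * 2 ^ r * D.card ≤
        2 ^ N * (2 ^ r + (3 ^ b + 1) * (3 ^ b * m - 2 ^ r)) := by
  have : Fact (Nat.Prime 3) := ⟨Nat.prime_three⟩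
  have : NeZero m := ⟨hm⟩
  let K : Type := GaloisField 3 b
  let _ : Fintype K := Fintype.ofFinite K
  have hK : Fintype.card K = 3 ^ b := by
    rw [← Nat.card_eq_fintype_card]
    exact GaloisField.card 3 b hb
  let W : Type := Fin r → ZMod 2
  have hWc : Fintype.card W = 2 ^ r := by
    simp [W, ZMod.card]
  have hAc : Fintype.card (K × ZMod m) = 3 ^ b * m := by
    rw [Fintype.card_prod, hK, ZMod.card]
  have hIc : Fintype.card (Option K) = 3 ^ b + 1 := by
    rw [Fintype.card_option, hK]
  have hPc : Fintype.card (K × K × ZMod m) = 3 ^ b * (3 ^ b * m) := by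
    rw [Fintype.card_prod, Fintype.card_prod, hK, ZMod.card]
  obtain ⟨f⟩ : Nonempty (W ↪ K × ZMod m) := by
    apply Function.Embedding.nonempty_of_card_le
    rw [hWc, hAc]; exact hW
  obtain ⟨D, hI, hD, hcard⟩ := exists_restrict (I := Option K) (W := W) f f.injective
    (col (K := K) (m := m)) col_ne col_surj
  rw [hWc, hAc, hIc, hPc] at hcard
  -- the labelling
  have h2 : ∀ w : W, w + w = 0 := by
    intro w
    funext i
    exact CharTwo.add_self_eq_zero (w i)
  obtain ⟨l, hne, hsurj⟩ : ∃ l : Fin N → Option K × W, (∀ k, (l k).2 ≠ 0) ∧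
      (∀ i w, w ≠ 0 → ∃ k, l k = (i, w)) := by
    let S : Type := {w : W // w ≠ 0}
    have hr2 : 2 ≤ 2 ^ r := by
      calc 2 = 2 ^ 1 := (pow_one 2).symm
        _ ≤ 2 ^ r := Nat.pow_le_pow_right (by norm_num) (Nat.one_le_iff_ne_zero.mpr hr)
    have hSc : Fintype.card S = 2 ^ r - 1 := by
      rw [← hWc]
      exact Set.card_ne_eq (0 : W)
    have hSne : Nonempty S := by
      rw [← Fintype.card_pos_iff, hSc]
      omega
    obtain ⟨g⟩ : Nonempty (Option K × S ↪ Fin N) := by
      apply Function.Embedding.nonempty_of_card_le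
      rw [Fintype.card_prod, hIc, hSc, Fintype.card_fin]
      exact hN
    refine ⟨fun k => ((Function.invFun g k).1, (Function.invFun g k).2.1), ?_, ?_⟩
    · intro k
      exact (Function.invFun g k).2.2
    · intro i w hw
      refine ⟨g (i, ⟨w, hw⟩), ?_⟩
      have h := Function.leftInverse_invFun g.injective (i, ⟨w, hw⟩)
      simp only [h]
  obtain ⟨D', hI', hD', hcard'⟩ := exists_pullback h2 l hne hsurj D hI hD
  rw [hWc, hIc] at hcard'
  refine ⟨D', hI', hD', ?_⟩
  have hpos : 0 < (2 ^ r) ^ (3 ^ b + 1) := by positivity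
  refine Nat.le_of_mul_le_mul_left ?_ hpos
  calc (2 ^ r) ^ (3 ^ b + 1) * ((3 ^ b * (3 ^ b * m)) * 2 ^ r * D'.card)
      = (3 ^ b * (3 ^ b * m)) * 2 ^ r * ((2 ^ r) ^ (3 ^ b + 1) * D'.card) := by ring
    _ ≤ (3 ^ b * (3 ^ b * m)) * 2 ^ r * (2 ^ N * D.card) := Nat.mul_le_mul_left _ hcard'
    _ = 2 ^ N * (3 ^ b * (3 ^ b * m) * (2 ^ r * D.card)) := by ring
    _ ≤ 2 ^ N * ((2 ^ r) ^ (3 ^ b + 1) * (2 ^ r + (3 ^ b + 1) * (3 ^ b * m - 2 ^ r))) :=
        Nat.mul_le_mul_left _ hcard
    _ = (2 ^ r) ^ (3 ^ b + 1) * (2 ^ N * (2 ^ r + (3 ^ b + 1) * (3 ^ b * m - 2 ^ r))) := by ring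

/-! ## Numbers of the form `3 ^ b * 2 ^ r` are multiplicatively dense -/

/-- Powers of `3` and `2` that are close to each other but different. -/
lemma exists_close (δ : ℝ) (hδ : 0 < δ) : ∃ k j : ℕ, 0 < k ∧
    ((2 : ℝ) ^ j < 3 ^ k ∧ (3 : ℝ) ^ k ≤ (1 + δ) * 2 ^ j ∨
      (3 : ℝ) ^ k < 2 ^ j ∧ (2 : ℝ) ^ j ≤ (1 + δ) * 3 ^ k) := by
  have hlog : 0 < Real.log (1 + δ) := Real.log_pos (by linarith)
  have hl2 : 0 < Real.log 2 := Real.log_pos (by norm_num)
  have hl3 : 0 < Real.log 3 := Real.log_pos (by norm_num)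
  obtain ⟨n, hn⟩ := exists_nat_gt (Real.log 2 / Real.log (1 + δ))
  have hn0 : (0 : ℝ) < n := lt_of_le_of_lt (by positivity) hn
  have hnpos : 0 < n := by exact_mod_cast hn0
  obtain ⟨k, hk, -, hkr⟩ := Real.exists_nat_abs_mul_sub_round_le (Real.log 3 / Real.log 2) hnpos
  set j' : ℤ := round ((k : ℝ) * (Real.log 3 / Real.log 2)) with hj'
  have hj0 : 0 ≤ j' := by
    rw [hj', round_eq]
    apply Int.floor_nonneg.mpr
    positivity
  obtain ⟨j, hj⟩ := Int.eq_ofNat_of_zero_le hj0
  have hjr : (j' : ℝ) = (j : ℝ) := by rw [hj]; simp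
  rw [hjr] at hkr
  have h1 : |(k : ℝ) * Real.log 3 - j * Real.log 2| ≤ Real.log (1 + δ) := by
    have e : (k : ℝ) * Real.log 3 - j * Real.log 2 =
        ((k : ℝ) * (Real.log 3 / Real.log 2) - j) * Real.log 2 := by
      field_simp
    rw [e, abs_mul, abs_of_pos hl2]
    calc |(k : ℝ) * (Real.log 3 / Real.log 2) - j| * Real.log 2
        ≤ 1 / (n + 1) * Real.log 2 := mul_le_mul_of_nonneg_right hkr hl2.le
      _ ≤ Real.log (1 + δ) := by
        rw [div_mul_eq_mul_div, one_mul, div_le_iff₀ (by positivity)]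
        rw [div_lt_iff₀ hlog] at hn
        nlinarith
  have e3 : Real.log ((3 : ℝ) ^ k) = k * Real.log 3 := Real.log_pow _ _
  have e2 : Real.log ((2 : ℝ) ^ j) = j * Real.log 2 := Real.log_pow _ _
  rw [abs_le] at h1
  have hne : (2 : ℝ) ^ j ≠ 3 ^ k := by
    intro h
    have h' : (2 : ℕ) ^ j = 3 ^ k := by exact_mod_cast h
    have hodd : Odd (3 ^ k) := Odd.pow (by decide)
    rw [← h'] at hodd
    rcases Nat.eq_zero_or_pos j with hj0 | hj0
    · subst hj0
      have : 3 ^ k = 1 := by simpa using h'.symm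
      have h3 : 3 ≤ 3 ^ k := by
        calc 3 = 3 ^ 1 := (pow_one 3).symm
          _ ≤ 3 ^ k := Nat.pow_le_pow_right (by norm_num) hk
      omega
    · have heven : Even (2 ^ j) := by
        rw [Nat.even_pow]
        exact ⟨even_two, by omega⟩
      exact (Nat.not_even_iff_odd.mpr hodd) heven
  refine ⟨k, j, hk, ?_⟩
  rcases lt_or_gt_of_ne hne with h | h
  · left
    refine ⟨h, ?_⟩
    rw [← Real.log_le_log_iff (by positivity) (by positivity),
      Real.log_mul (by positivity) (by positivity), e3, e2]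
    linarith [h1.2]
  · right
    refine ⟨h, ?_⟩
    rw [← Real.log_le_log_iff (by positivity) (by positivity),
      Real.log_mul (by positivity) (by positivity), e3, e2]
    linarith [h1.1]

lemma exists_net (δ : ℝ) (hδ : 0 < δ) (b0 : ℕ) : ∃ B : ℕ, ∀ R : ℕ, ∃ Y : ℝ, ∀ y : ℝ, Y ≤ y →
    ∃ r b : ℕ, b0 ≤ b ∧ b ≤ B ∧ R ≤ r ∧ (3 : ℝ) ^ b * 2 ^ r ≤ y ∧
      y ≤ (1 + δ) * ((3 : ℝ) ^ b * 2 ^ r) := by
  obtain ⟨k, j, hk, hkj⟩ := exists_close δ hδ
  -- common part
  have common : ∀ (c x : ℝ) (L R : ℕ), 0 < c → 1 < x → x ≤ 1 + δ → 2 ≤ x ^ L → ∀ y : ℝ,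
      c * 2 ^ R ≤ y → ∃ r l : ℕ, R ≤ r ∧ l ≤ L ∧ c * 2 ^ r * x ^ l ≤ y ∧
        y ≤ (1 + δ) * (c * 2 ^ r * x ^ l) := by
    intro c x L R hc hx hxδ hL y hy
    have h1 : 1 ≤ y / c := by
      rw [le_div_iff₀ hc, one_mul]
      refine le_trans ?_ hy
      nlinarith [one_le_pow₀ (M₀ := ℝ) (a := 2) (n := R) (by norm_num)]
    obtain ⟨r, hr1, hr2⟩ := exists_nat_pow_near h1 (by norm_num : (1 : ℝ) < 2)
    have hRr : R ≤ r := by
      have h2 : (2 : ℝ) ^ R < 2 ^ (r + 1) := by
        refine lt_of_le_of_lt ?_ hr2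
        rw [le_div_iff₀ hc, mul_comm]
        exact hy
      have := (pow_lt_pow_iff_right₀ (by norm_num : (1 : ℝ) < 2)).mp h2
      omega
    have hc2 : 0 < c * 2 ^ r := by positivity
    have hyc : y / (c * 2 ^ r) = (y / c) / 2 ^ r := by rw [div_div]
    have ht1 : 1 ≤ y / (c * 2 ^ r) := by
      rw [hyc, le_div_iff₀ (by positivity), one_mul]
      exact hr1
    have ht2 : y / (c * 2 ^ r) < 2 := by
      rw [hyc, div_lt_iff₀ (by positivity)]
      calc y / c < 2 ^ (r + 1) := hr2
        _ = 2 * 2 ^ r := by ring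
    obtain ⟨l, hl1, hl2⟩ := exists_nat_pow_near ht1 hx
    have hlL : l ≤ L := by
      by_contra hcon
      push Not at hcon
      have : x ^ L < x ^ l := pow_lt_pow_right₀ hx hcon
      linarith
    refine ⟨r, l, hRr, hlL, ?_, ?_⟩
    · rw [le_div_iff₀ hc2] at hl1
      linarith
    · rw [div_lt_iff₀ hc2, pow_succ] at hl2
      have h3 : 0 ≤ x ^ l * (c * 2 ^ r) := by positivity
      nlinarith
  rcases hkj with ⟨h1, h2⟩ | ⟨h1, h2⟩
  · -- `2 ^ j < 3 ^ k`
    have hx : (1 : ℝ) < 3 ^ k / 2 ^ j := by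
      rw [lt_div_iff₀ (by positivity), one_mul]; exact h1
    have hxδ : (3 : ℝ) ^ k / 2 ^ j ≤ 1 + δ := by
      rw [div_le_iff₀ (by positivity)]; exact h2
    obtain ⟨L, hL⟩ := pow_unbounded_of_one_lt 2 hx
    refine ⟨b0 + k * L, fun R => ⟨3 ^ b0 * 2 ^ (R + j * L), fun y hy => ?_⟩⟩
    obtain ⟨r, l, hr, hl, h3, h4⟩ := common (3 ^ b0) _ L (R + j * L) (by positivity) hx hxδ hL.le y hy
    have hjl : j * l ≤ j * L := Nat.mul_le_mul_left _ hl
    have e : (3 : ℝ) ^ b0 * 2 ^ r * (3 ^ k / 2 ^ j) ^ l = 3 ^ (b0 + k * l) * 2 ^ (r - j * l) := by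
      have hr' : r = (r - j * l) + j * l := by omega
      conv_lhs => rw [hr']
      rw [div_pow, ← pow_mul, ← pow_mul, pow_add, pow_add]
      field_simp
    rw [e] at h3 h4
    exact ⟨r - j * l, b0 + k * l, by omega, by
      have : k * l ≤ k * L := Nat.mul_le_mul_left _ hl
      omega, by omega, h3, h4⟩
  · -- `3 ^ k < 2 ^ j`
    have hx : (1 : ℝ) < 2 ^ j / 3 ^ k := by
      rw [lt_div_iff₀ (by positivity), one_mul]; exact h1
    have hxδ : (2 : ℝ) ^ j / 3 ^ k ≤ 1 + δ := by
      rw [div_le_iff₀ (by positivity)]; exact h2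
    obtain ⟨L, hL⟩ := pow_unbounded_of_one_lt 2 hx
    refine ⟨b0 + k * L, fun R => ⟨3 ^ (b0 + k * L) * 2 ^ R, fun y hy => ?_⟩⟩
    obtain ⟨r, l, hr, hl, h3, h4⟩ := common (3 ^ (b0 + k * L)) _ L R (by positivity) hx hxδ hL.le y hy
    have hkl : k * l ≤ k * L := Nat.mul_le_mul_left _ hl
    have e : (3 : ℝ) ^ (b0 + k * L) * 2 ^ r * (2 ^ j / 3 ^ k) ^ l =
        3 ^ (b0 + (k * L - k * l)) * 2 ^ (r + j * l) := by
      have hr' : b0 + k * L = (b0 + (k * L - k * l)) + k * l := by omega
      conv_lhs => rw [hr']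
      rw [div_pow, ← pow_mul, ← pow_mul, pow_add (3 : ℝ) (b0 + (k * L - k * l)), pow_add (2 : ℝ)]
      field_simp
    rw [e] at h3 h4
    exact ⟨r + j * l, b0 + (k * L - k * l), by omega, by omega, by omega, h3, h4⟩

/-! ## The hypercube -/

lemma nb_iff {n : ℕ} (u v : Fin n → Bool) : hammingDist u v = 1 ↔ Nb u v := by
  unfold hammingDist
  rw [Finset.card_eq_one]
  constructor
  · rintro ⟨i, hi⟩
    refine ⟨i, ?_, fun j hj => ?_⟩
    · have : i ∈ ({i} : Finset (Fin n)) := Finset.mem_singleton_self i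
      rw [← hi] at this
      simpa using this
    · by_contra hne
      have : j ∈ (Finset.univ.filter (fun i => u i ≠ v i) : Finset (Fin n)) := by
        simp [hne]
      rw [hi, Finset.mem_singleton] at this
      exact hj this
  · rintro ⟨i, hi, hoff⟩
    refine ⟨i, ?_⟩
    ext j
    simp only [Finset.mem_filter, Finset.mem_univ, true_and, Finset.mem_singleton]
    constructor
    · intro h
      by_contra hj
      exact h (hoff j hj)
    · rintro rfl
      exact hi

/-- The sphere bound. -/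
lemma sphere_bound {n : ℕ} (E : Finset (Fin n → Bool)) (hE : Dom E) :
    2 ^ n ≤ (n + 1) * E.card := by
  have hcov : (Finset.univ : Finset (Fin n → Bool)) ⊆
      E.biUnion (fun u => insert u (Finset.univ.image (fun i => Function.update u i (!u i)))) := by
    intro v _
    rw [Finset.mem_biUnion]
    rcases hE v with h | ⟨u, hu, i, hi, hoff⟩
    · exact ⟨v, h, Finset.mem_insert_self _ _⟩
    · refine ⟨u, hu, Finset.mem_insert_of_mem (Finset.mem_image.mpr ⟨i, Finset.mem_univ _, ?_⟩)⟩
      funext j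
      by_cases hj : j = i
      · subst hj
        rw [Function.update_self]
        cases h1 : u j <;> cases h2 : v j
        · exact absurd (h1.trans h2.symm) hi
        · rfl
        · rfl
        · exact absurd (h1.trans h2.symm) hi
      · rw [Function.update_of_ne hj]
        exact hoff j hj
  have h1 := Finset.card_le_card hcov
  rw [Finset.card_univ, Fintype.card_fun, Fintype.card_bool, Fintype.card_fin] at h1
  refine h1.trans (Finset.card_biUnion_le.trans ?_)
  calc ∑ u ∈ E, (insert u (Finset.univ.image (fun i => Function.update u i (!u i)))).card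
      ≤ ∑ _u ∈ E, (n + 1) := by
        refine Finset.sum_le_sum (fun u _ => ?_)
        refine (Finset.card_insert_le _ _).trans ?_
        refine Nat.add_le_add_right (Finset.card_image_le.trans ?_) 1
        rw [Finset.card_univ, Fintype.card_fin]
    _ = (n + 1) * E.card := by rw [Finset.sum_const, smul_eq_mul, mul_comm]

/-- Asymptotic form of the Harary-Livingston conjecture. -/
theorem result : ∀ ε : ℝ, 0 < ε → ∃ N : ℕ, ∀ n : ℕ, N ≤ n →
    ∃ D : Finset (Fin n → Bool),
      (∀ v : Fin n → Bool, v ∈ D ∨ ∃ u ∈ D, hammingDist u v = 1) ∧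
      (∀ u ∈ D, ∀ v ∈ D, hammingDist u v ≠ 1) ∧
      ((n : ℝ) + 1) * (D.card : ℝ) ≤ (1 + ε) * 2 ^ n ∧
      ∀ E : Finset (Fin n → Bool),
        (∀ v : Fin n → Bool, v ∈ E ∨ ∃ u ∈ E, hammingDist u v = 1) →
        (D.card : ℝ) ≤ (1 + ε) * (E.card : ℝ) := by
  intro ε hε
  set δ : ℝ := min (ε / 9) 1 with hδdef
  have hδ : 0 < δ := lt_min (by positivity) one_pos
  have hδ1 : δ ≤ 1 := min_le_right _ _
  have hδε : 9 * δ ≤ ε := by
    have := min_le_left (ε / 9) 1
    rw [← hδdef] at this
    linarith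
  -- choice of `b0`
  obtain ⟨b0', hb0'⟩ := pow_unbounded_of_one_lt (1 / δ) (by norm_num : (1 : ℝ) < 3)
  set b0 : ℕ := b0' + 1 with hb0
  have hM : 1 / δ ≤ (3 : ℝ) ^ b0 := by
    refine hb0'.le.trans ?_
    exact pow_le_pow_right₀ (by norm_num) (by omega)
  obtain ⟨B, hB⟩ := exists_net δ hδ b0
  -- choice of `R`
  obtain ⟨R', hR'⟩ := pow_unbounded_of_one_lt ((3 ^ B * (3 ^ B + 1) + 1) / δ)
    (by norm_num : (1 : ℝ) < 2)
  set R : ℕ := R' + 1 with hR
  have hRδ : ((3 : ℝ) ^ B * (3 ^ B + 1) + 1) ≤ δ * 2 ^ R := by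
    rw [div_lt_iff₀ hδ] at hR'
    have : (2 : ℝ) ^ R' ≤ 2 ^ R := pow_le_pow_right₀ (by norm_num) (by omega)
    nlinarith
  obtain ⟨Y, hY⟩ := hB R
  -- choice of `N`
  obtain ⟨N, hN⟩ := exists_nat_ge (2 * max Y 0)
  refine ⟨N, fun n hn => ?_⟩
  set M : ℝ := (3 : ℝ) ^ b0 with hMdef
  have hM1 : 1 ≤ M := one_le_pow₀ (by norm_num)
  have hnr : (2 * max Y 0) ≤ (n : ℝ) := hN.trans (by exact_mod_cast hn)
  set y : ℝ := n * (M / (M + 1)) with hy
  have hhalf : 1 / 2 ≤ M / (M + 1) := by
    rw [div_le_div_iff₀ (by norm_num) (by linarith)]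
    linarith
  have hyY : Y ≤ y := by
    have h0 : 0 ≤ max Y 0 := le_max_right _ _
    have h1 : Y ≤ max Y 0 := le_max_left _ _
    have h2 : (n : ℝ) * (1 / 2) ≤ y := mul_le_mul_of_nonneg_left hhalf (Nat.cast_nonneg n)
    linarith
  obtain ⟨r, b, hb0b, hbB, hRr, hle, hge⟩ := hY y hyY
  set q : ℝ := (3 : ℝ) ^ b with hq
  set x : ℝ := (2 : ℝ) ^ r with hx
  have hqM : M ≤ q := pow_le_pow_right₀ (by norm_num) hb0b
  have hq0 : 0 < q := by positivity
  have hx0 : 0 < x := by positivity
  have hyM : y * (1 + 1 / M) = n := by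
    rw [hy]
    field_simp
  have hq1M : (q + 1) * x ≤ n := by
    rw [← hyM]
    have h1 : 1 / q ≤ 1 / M := one_div_le_one_div_of_le (by linarith) hqM
    have h2 : (q + 1) * x = q * x * (1 + 1 / q) := by field_simp
    rw [h2]
    have h3 : 0 ≤ q * x := by positivity
    have h4 : 0 ≤ 1 + 1 / q := by positivity
    calc q * x * (1 + 1 / q) ≤ y * (1 + 1 / q) := mul_le_mul_of_nonneg_right hle h4
      _ ≤ y * (1 + 1 / M) := mul_le_mul_of_nonneg_left (by linarith) (h3.trans hle)
  -- natural number parameters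
  set m : ℕ := (2 ^ r + 3 ^ b - 1) / 3 ^ b with hm
  have h3pos : 0 < 3 ^ b := by positivity
  have h2pos : 0 < 2 ^ r := by positivity
  have hdiv := Nat.div_add_mod (2 ^ r + 3 ^ b - 1) (3 ^ b)
  have hmod := Nat.mod_lt (2 ^ r + 3 ^ b - 1) h3pos
  rw [← hm] at hdiv
  have hW : 2 ^ r ≤ 3 ^ b * m := by omega
  have hW2 : 3 ^ b * m - 2 ^ r ≤ 3 ^ b := by omega
  have hm0 : m ≠ 0 := by
    rintro h0
    rw [h0] at hW
    omega
  have hr0 : r ≠ 0 := by omega
  have hbne : b ≠ 0 := by omega
  have hNn : (3 ^ b + 1) * (2 ^ r - 1) ≤ n := by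
    have h1 : (3 ^ b + 1) * 2 ^ r ≤ n := by
      have : (((3 ^ b + 1) * 2 ^ r : ℕ) : ℝ) ≤ (n : ℝ) := by
        push_cast
        exact hq1M
      exact_mod_cast this
    exact (Nat.mul_le_mul_left _ (Nat.sub_le _ _)).trans h1
  obtain ⟨D, hI, hD, hcard⟩ := exists_finite b r m n hbne hr0 hm0 hW hNn
  have hcard2 : 3 ^ b * 2 ^ r * 2 ^ r * D.card ≤ 2 ^ n * (2 ^ r + (3 ^ b + 1) * 3 ^ b) := by
    calc 3 ^ b * 2 ^ r * 2 ^ r * D.card ≤ (3 ^ b * (3 ^ b * m)) * 2 ^ r * D.card := by
          refine Nat.mul_le_mul_right _ (Nat.mul_le_mul_right _ (Nat.mul_le_mul_left _ hW))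
      _ ≤ 2 ^ n * (2 ^ r + (3 ^ b + 1) * (3 ^ b * m - 2 ^ r)) := hcard
      _ ≤ 2 ^ n * (2 ^ r + (3 ^ b + 1) * 3 ^ b) :=
          Nat.mul_le_mul_left _ (Nat.add_le_add_left (Nat.mul_le_mul_left _ hW2) _)
  have hcard3 : q * x * x * (D.card : ℝ) ≤ 2 ^ n * (x + (q + 1) * q) := by
    have := (Nat.cast_le (α := ℝ)).mpr hcard2
    push_cast at this
    exact this
  have hqB : q ≤ 3 ^ B := pow_le_pow_right₀ (by norm_num) hbB
  have hxR : (2 : ℝ) ^ R ≤ x := pow_le_pow_right₀ (by norm_num) hRr
  have hsmall : (q + 1) * q ≤ δ * x := by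
    have h1 : (q + 1) * q ≤ 3 ^ B * (3 ^ B + 1) := by nlinarith
    have h2 : δ * 2 ^ R ≤ δ * x := mul_le_mul_of_nonneg_left hxR hδ.le
    linarith
  have hone : 1 ≤ δ * (q * x) := by
    have h1 : (1 : ℝ) ≤ δ * 2 ^ R := by
      have : (0 : ℝ) ≤ 3 ^ B * (3 ^ B + 1) := by positivity
      linarith
    have h2 : δ * 2 ^ R ≤ δ * x := mul_le_mul_of_nonneg_left hxR hδ.le
    have h3 : x ≤ q * x := by
      have : 1 ≤ q := hM1.trans hqM
      nlinarith
    have h4 : δ * x ≤ δ * (q * x) := mul_le_mul_of_nonneg_left h3 hδ.le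
    linarith
  have hDx : q * x * (D.card : ℝ) ≤ (1 + δ) * 2 ^ n := by
    have h1 : x * (q * x * (D.card : ℝ)) ≤ x * ((1 + δ) * 2 ^ n) := by
      calc x * (q * x * (D.card : ℝ)) = q * x * x * (D.card : ℝ) := by ring
        _ ≤ 2 ^ n * (x + (q + 1) * q) := hcard3
        _ ≤ 2 ^ n * (x + δ * x) := by
            refine mul_le_mul_of_nonneg_left (by linarith) (by positivity)
        _ = x * ((1 + δ) * 2 ^ n) := by ring
    exact le_of_mul_le_mul_left h1 hx0
  have hn1 : (n : ℝ) + 1 ≤ ((1 + δ) * (1 + δ) + δ) * (q * x) := by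
    have h1 : 1 / M ≤ δ := by
      rw [div_le_iff₀ hδ] at hM
      rw [div_le_iff₀ (by linarith)]
      linarith
    have h2 : 0 ≤ q * x := by positivity
    have h3 : (n : ℝ) ≤ (1 + δ) * (1 + δ) * (q * x) := by
      rw [← hyM]
      calc y * (1 + 1 / M) ≤ y * (1 + δ) :=
            mul_le_mul_of_nonneg_left (by linarith) (h2.trans hle)
        _ ≤ (1 + δ) * (q * x) * (1 + δ) := mul_le_mul_of_nonneg_right hge (by linarith)
        _ = (1 + δ) * (1 + δ) * (q * x) := by ring
    linarith
  have hmain : ((n : ℝ) + 1) * (D.card : ℝ) ≤ (1 + ε) * 2 ^ n := by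
    have hc0 : (0 : ℝ) ≤ D.card := Nat.cast_nonneg _
    have hA : 0 ≤ (1 + δ) * (1 + δ) + δ := by positivity
    calc ((n : ℝ) + 1) * (D.card : ℝ)
        ≤ ((1 + δ) * (1 + δ) + δ) * (q * x) * D.card := mul_le_mul_of_nonneg_right hn1 hc0
      _ = ((1 + δ) * (1 + δ) + δ) * (q * x * D.card) := by ring
      _ ≤ ((1 + δ) * (1 + δ) + δ) * ((1 + δ) * 2 ^ n) := mul_le_mul_of_nonneg_left hDx hA
      _ = (((1 + δ) * (1 + δ) + δ) * (1 + δ)) * 2 ^ n := by ring
      _ ≤ (1 + ε) * 2 ^ n := by
        refine mul_le_mul_of_nonneg_right ?_ (by positivity)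
        have e1 : δ * δ ≤ δ := by
          calc δ * δ ≤ δ * 1 := mul_le_mul_of_nonneg_left hδ1 hδ.le
            _ = δ := mul_one δ
        have e2 : δ * δ * δ ≤ δ := by
          calc δ * δ * δ ≤ δ * δ * 1 := mul_le_mul_of_nonneg_left hδ1 (mul_nonneg hδ.le hδ.le)
            _ = δ * δ := mul_one _
            _ ≤ δ := e1
        have e3 : ((1 + δ) * (1 + δ) + δ) * (1 + δ) = 1 + 4 * δ + 4 * (δ * δ) + δ * δ * δ := by
          ring
        rw [e3]
        linarith
  refine ⟨D, ?_, ?_, hmain, ?_⟩
  · intro v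
    rcases hD v with h | ⟨u, hu, huv⟩
    · exact Or.inl h
    · exact Or.inr ⟨u, hu, (nb_iff u v).mpr huv⟩
  · intro u hu v hv huv
    exact hI u hu v hv ((nb_iff u v).mp huv)
  · intro E hE
    have hE' : Dom E := by
      intro v
      rcases hE v with h | ⟨u, hu, huv⟩
      · exact Or.inl h
      · exact Or.inr ⟨u, hu, (nb_iff u v).mp huv⟩
    have hs := sphere_bound E hE'
    have hs' : (2 : ℝ) ^ n ≤ ((n : ℝ) + 1) * E.card := by exact_mod_cast hs
    have hnpos : (0 : ℝ) < (n : ℝ) + 1 := by positivity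
    refine le_of_mul_le_mul_left ?_ hnpos
    calc ((n : ℝ) + 1) * (D.card : ℝ) ≤ (1 + ε) * 2 ^ n := hmain
      _ ≤ (1 + ε) * (((n : ℝ) + 1) * E.card) := mul_le_mul_of_nonneg_left hs' (by linarith)
      _ = ((n : ℝ) + 1) * ((1 + ε) * E.card) := by ring

end Pool.Agent.Results.MP_bc2c67_co.AsymptoticHL
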